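import Pool.Agent.H73.CBE.Stmts

/-!
Board `cbe`, row PER (helper23): facts about `perp`.
-/

set_option autoImplicit false

open Set Filter Topology

namespace Pool.CBE

namespace PER23

variable {n : ℕ}

theorem nsq (z : E n) : (inner ℂ z z : ℂ) = ((‖z‖ ^ 2 : ℝ) : ℂ) := by
  rw [inner_self_eq_norm_sq_to_K]
  norm_cast

theorem nne {z : E n} (hz : z ≠ 0) : ((‖z‖ ^ 2 : ℝ) : ℂ) ≠ 0 := by
  exact_mod_cast pow_ne_zero 2 (norm_ne_zero_iff.mpr hz)

theorem orth (z v : E n) (hz : z ≠ 0) : (inner ℂ z (perp z v) : ℂ) = 0 := by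
  unfold perp
  rw [inner_sub_right, inner_smul_right, nsq, div_mul_cancel₀ _ (nne hz), sub_self]

/-- Pythagoras -/
theorem pyth (z v : E n) (c : ℂ) (hz : z ≠ 0) :
    ‖perp z v + c • z‖ ^ 2 = ‖perp z v‖ ^ 2 + ‖c‖ ^ 2 * ‖z‖ ^ 2 := by
  have h1 : (inner ℂ (perp z v) (c • z) : ℂ) = 0 := by
    rw [inner_smul_right, ← inner_conj_symm, orth z v hz]
    simp
  have h2 := norm_add_sq_eq_norm_sq_add_norm_sq_of_inner_eq_zero (𝕜 := ℂ) (perp z v) (c • z) h1
  rw [norm_smul] at h2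
  nlinarith

theorem decomp (z v : E n) (c : ℂ) :
    v - c • z = perp z v + ((inner ℂ z v : ℂ) / ((‖z‖ ^ 2 : ℝ) : ℂ) - c) • z := by
  unfold perp
  rw [sub_smul]
  abel

end PER23

open PER23 in
theorem PER_thm : PERStmt := by
  refine ⟨fun n z v hz => orth z v hz, ?_, ?_, ?_, ?_, ?_⟩
  · intro n z v hz
    have h1 := pyth z v ((inner ℂ z v : ℂ) / ((‖z‖ ^ 2 : ℝ) : ℂ)) hz
    have h2 := decomp z v 0
    rw [zero_smul, sub_zero, sub_zero] at h2
    rw [← h2, norm_div] at h1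
    have hz0 : ‖z‖ ≠ 0 := norm_ne_zero_iff.mpr hz
    have h3 : ‖((‖z‖ ^ 2 : ℝ) : ℂ)‖ = ‖z‖ ^ 2 := by
      rw [Complex.norm_real, Real.norm_of_nonneg (by positivity)]
    rw [h3] at h1
    have h4 : (‖(inner ℂ z v : ℂ)‖ / ‖z‖ ^ 2) ^ 2 * ‖z‖ ^ 2 =
        ‖(inner ℂ z v : ℂ)‖ ^ 2 / ‖z‖ ^ 2 := by
      field_simp
    rw [h4] at h1
    linarith
  · intro n z v c hz
    have h1 := pyth z v ((inner ℂ z v : ℂ) / ((‖z‖ ^ 2 : ℝ) : ℂ) - c) hz
    rw [← decomp] at h1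
    have h2 : ‖perp z v‖ ^ 2 ≤ ‖v - c • z‖ ^ 2 := by
      rw [h1]
      have : 0 ≤ ‖(inner ℂ z v : ℂ) / ((‖z‖ ^ 2 : ℝ) : ℂ) - c‖ ^ 2 * ‖z‖ ^ 2 := by positivity
      linarith
    exact (sq_le_sq₀ (norm_nonneg _) (norm_nonneg _)).1 h2
  · intro n z v w c
    unfold perp
    constructor
    · rw [inner_add_right, add_div, add_smul]
      abel
    · rw [inner_smul_right, mul_div_assoc, mul_smul, smul_sub]
  · intro n z hz
    unfold perp
    rw [nsq, div_self (nne hz), one_smul, sub_self]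
  · intro n z v c hc
    by_cases hz : z = 0
    · subst hz
      simp [perp]
    · unfold perp
      congr 1
      rw [smul_smul]
      congr 1
      rw [inner_smul_left, norm_smul]
      have h1 : (((‖c‖ * ‖z‖) ^ 2 : ℝ) : ℂ) = (starRingEnd ℂ) c * c * ((‖z‖ ^ 2 : ℝ) : ℂ) := by
        rw [mul_pow, Complex.ofReal_mul, ← Complex.normSq_eq_norm_sq, Complex.normSq_eq_conj_mul_self]
      rw [h1]
      have h2 : (starRingEnd ℂ) c ≠ 0 := by
        rw [Ne, map_eq_zero]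
        exact hc
      have h3 := nne hz
      field_simp

end Pool.CBE
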